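import Pool.Agent.H13.EC.Def

/-!
# EC-K4, polar integral, top and corner bounds (helper36)
-/

set_option autoImplicit false

open Set Metric MeasureTheory

namespace H36.EC

open H62.CJ H13.EC

/-- `int_{|w - c| ≤ ρ} |w - c|^(-s) = 2 pi ρ^(2-s)/(2-s)` -/
theorem polar (s ρ : ℝ) (hs : s < 2) (hρ : 0 ≤ ρ) (c : ℂ) :
    IntegrableOn (fun w : ℂ => ‖w - c‖ ^ (-s)) (closedBall c ρ) ∧
    ∫ w in closedBall c ρ, ‖w - c‖ ^ (-s) = 2 * Real.pi * ρ ^ (2 - s) / (2 - s) := by
  have hf : (closedBall c ρ).indicator (fun w : ℂ => ‖w - c‖ ^ (-s)) =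
      fun w => (Iic ρ).indicator (fun y : ℝ => y ^ (-s)) ‖w - c‖ := by
    funext w
    by_cases hw : ‖w - c‖ ≤ ρ
    · rw [indicator_of_mem (show w ∈ closedBall c ρ by rwa [mem_closedBall, dist_eq_norm]),
        indicator_of_mem (show ‖w - c‖ ∈ Iic ρ from hw)]
    · rw [indicator_of_notMem (show w ∉ closedBall c ρ by rwa [mem_closedBall, dist_eq_norm]),
        indicator_of_notMem (show ‖w - c‖ ∉ Iic ρ from hw)]
  have hd : Module.finrank ℝ ℂ = 2 := Complex.finrank_real_complex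
  have hg : ∀ y ∈ Ioi (0 : ℝ), y ^ (Module.finrank ℝ ℂ - 1) •
      (Iic ρ).indicator (fun y : ℝ => y ^ (-s)) y =
      (Iic ρ).indicator (fun y : ℝ => y ^ (1 - s)) y := by
    intro y hy
    have hy0 : 0 < y := hy
    rw [hd]
    by_cases hw : y ≤ ρ
    · rw [indicator_of_mem (show y ∈ Iic ρ from hw), indicator_of_mem (show y ∈ Iic ρ from hw),
        smul_eq_mul]
      rw [show 1 - s = 1 + -s by ring, Real.rpow_add hy0, Real.rpow_one]
      norm_num
    · rw [indicator_of_notMem (show y ∉ Iic ρ from hw),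
        indicator_of_notMem (show y ∉ Iic ρ from hw), smul_zero]
  have hI : IntegrableOn (fun y : ℝ => y ^ (1 - s)) (Ioc 0 ρ) := by
    have h := (intervalIntegral.intervalIntegrable_rpow' (a := 0) (b := ρ)
      (show (-1 : ℝ) < 1 - s by linarith)).1
    exact h
  have hset : Iic ρ ∩ Ioi 0 = Ioc 0 ρ := by
    ext y
    simp [and_comm]
  have hI2 : IntegrableOn (fun y : ℝ => y ^ (Module.finrank ℝ ℂ - 1) •
      (Iic ρ).indicator (fun y : ℝ => y ^ (-s)) y) (Ioi 0) := by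
    rw [integrableOn_congr_fun hg measurableSet_Ioi, IntegrableOn,
      integrable_indicator_iff measurableSet_Iic, IntegrableOn,
      Measure.restrict_restrict measurableSet_Iic, hset]
    exact hI
  have hI3 : Integrable (fun x : ℂ => (Iic ρ).indicator (fun y : ℝ => y ^ (-s)) ‖x‖) := by
    rw [integrable_fun_norm_addHaar volume
      (f := fun y : ℝ => (Iic ρ).indicator (fun y : ℝ => y ^ (-s)) y)]
    exact hI2
  constructor
  · rw [← integrable_indicator_iff measurableSet_closedBall, hf]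
    exact hI3.comp_sub_right c
  · rw [← integral_indicator measurableSet_closedBall, hf,
      integral_sub_right_eq_self (fun x : ℂ => (Iic ρ).indicator (fun y : ℝ => y ^ (-s)) ‖x‖) c,
      integral_fun_norm_addHaar volume
      (fun y : ℝ => (Iic ρ).indicator (fun y : ℝ => y ^ (-s)) y)]
    rw [setIntegral_congr_fun measurableSet_Ioi hg, setIntegral_indicator measurableSet_Iic,
      inter_comm, hset, ← intervalIntegral.integral_of_le hρ,
      integral_rpow (Or.inl (by linarith))]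
    rw [hd, Real.zero_rpow (by linarith), sub_zero, show 1 - s + 1 = 2 - s by ring]
    have hv : (volume : Measure ℂ).real (ball 0 1) = Real.pi := by
      rw [Measure.real, Complex.volume_ball]
      simp
    rw [hv]
    simp only [nsmul_eq_mul, smul_eq_mul]
    push_cast
    ring

/-- comparison on `closedBall 0 r` -/
theorem polar_le (s r : ℝ) (hs : s < 2) (c : ℂ) (hr : ‖c‖ ≤ r) (f : ℂ → ℝ)
    (hf0 : ∀ w, 0 ≤ f w) (K : ℝ) (hK : 0 ≤ K) (hf : ∀ w, w ≠ c → f w ≤ K * ‖w - c‖ ^ (-s)) :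
    ∫ w in closedBall (0 : ℂ) r, f w ≤ K * (2 * Real.pi * (2 * r) ^ (2 - s) / (2 - s)) := by
  have hr0 : 0 ≤ r := (norm_nonneg _).trans hr
  obtain ⟨hi, he⟩ := polar s (2 * r) hs (by linarith) c
  have hsub : closedBall (0 : ℂ) r ⊆ closedBall c (2 * r) := by
    intro w hw
    rw [mem_closedBall, dist_eq_norm] at hw ⊢
    rw [sub_zero] at hw
    have := norm_sub_le w c
    linarith
  rw [← he, ← integral_const_mul]
  have hg0 : ∀ w : ℂ, 0 ≤ K * ‖w - c‖ ^ (-s) := fun w => by positivity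
  calc ∫ w in closedBall (0 : ℂ) r, f w
      ≤ ∫ w in closedBall (0 : ℂ) r, K * ‖w - c‖ ^ (-s) := by
        refine integral_mono_of_nonneg (Filter.Eventually.of_forall hf0)
          ((hi.mono_set hsub).const_mul K) ?_
        have h : ∀ᵐ w ∂(volume.restrict (closedBall (0 : ℂ) r)), w ≠ c :=
          ae_restrict_of_ae (Measure.ae_ne volume c)
        filter_upwards [h] with w hw using hf w hw
    _ ≤ ∫ w in closedBall c (2 * r), K * ‖w - c‖ ^ (-s) :=
        setIntegral_mono_set (hi.const_mul K) (Filter.Eventually.of_forall hg0)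
          hsub.eventuallyLE

theorem E_le (F : ℂ → ℂ) (δ a : ℝ) (ha : 0 ≤ a) (w z : ℂ) (hw : w ≠ F z) :
    EE F δ w z ^ (-a) ≤ ‖w - F z‖ ^ (-(2 * a)) := by
  have h1 : 0 < ‖w - F z‖ := norm_pos_iff.2 (sub_ne_zero.2 hw)
  have h2 : ‖w - F z‖ ^ 2 ≤ EE F δ w z := by
    unfold EE
    rw [norm_sub_rev]
    nlinarith [sq_nonneg δ]
  calc EE F δ w z ^ (-a) ≤ (‖w - F z‖ ^ 2) ^ (-a) :=
        Real.rpow_le_rpow_of_nonpos (by positivity) h2 (by linarith)
    _ = ‖w - F z‖ ^ (-(2 * a)) := by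
        rw [← Real.rpow_natCast, ← Real.rpow_mul h1.le]
        congr 1
        push_cast
        ring

theorem top_bound (F : ℂ → ℂ) (q κ δ : ℝ) (hq : 0 < q) (hq1 : q < 1) (_hδ : 0 < δ)
    (z : ℂ) (hz : 0 < z.im) (r : ℝ) (hr : ‖F z‖ ≤ r) :
    ∫ w in closedBall (0 : ℂ) r, max 0 (-ux F q κ δ w z) ≤
      q * z.im ^ κ * ‖deriv F z‖ * (2 * Real.pi * (2 * r) ^ (1 - q) / (1 - q)) := by
  have h := polar_le (q + 1) r (by linarith) (F z) hr (fun w => max 0 (-ux F q κ δ w z))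
    (fun w => le_max_left _ _) (q * z.im ^ κ * ‖deriv F z‖) (by positivity) ?_
  · rw [show 2 - (q + 1) = 1 - q by ring] at h
    exact h
  intro w hw
  have h1 : 0 < ‖w - F z‖ := norm_pos_iff.2 (sub_ne_zero.2 hw)
  have hy : 0 ≤ z.im ^ κ := Real.rpow_nonneg hz.le _
  refine max_le (by positivity) ?_
  unfold ux
  rw [neg_neg]
  have h2 : PR F w z ≤ ‖w - F z‖ * ‖deriv F z‖ := by
    unfold PR
    refine (Complex.re_le_norm _).trans ?_
    rw [norm_mul, RCLike.norm_conj, norm_sub_rev]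
  have h3 : EE F δ w z ^ (-(q / 2) - 1) ≤ ‖w - F z‖ ^ (-(q + 2)) := by
    have := E_le F δ (q / 2 + 1) (by linarith) w z hw
    rw [show -(q / 2) - 1 = -(q / 2 + 1) by ring]
    rw [show 2 * (q / 2 + 1) = q + 2 by ring] at this
    exact this
  have hE : 0 ≤ EE F δ w z ^ (-(q / 2) - 1) := by
    refine Real.rpow_nonneg ?_ _
    unfold EE
    positivity
  have h4 : ‖w - F z‖ ^ (-(q + 2)) * ‖w - F z‖ = ‖w - F z‖ ^ (-(q + 1)) := by
    nth_rewrite 2 [← Real.rpow_one ‖w - F z‖]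
    rw [← Real.rpow_add h1]
    congr 1
    ring
  calc q * z.im ^ κ * EE F δ w z ^ (-(q / 2) - 1) * PR F w z
      ≤ q * z.im ^ κ * EE F δ w z ^ (-(q / 2) - 1) * (‖w - F z‖ * ‖deriv F z‖) := by
        refine mul_le_mul_of_nonneg_left h2 (by positivity)
    _ ≤ q * z.im ^ κ * ‖w - F z‖ ^ (-(q + 2)) * (‖w - F z‖ * ‖deriv F z‖) := by
        refine mul_le_mul_of_nonneg_right ?_ (by positivity)
        exact mul_le_mul_of_nonneg_left h3 (by positivity)
    _ = q * z.im ^ κ * ‖deriv F z‖ * ‖w - F z‖ ^ (-(q + 1)) := by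
        rw [← h4]
        ring

theorem corner_bound (F : ℂ → ℂ) (q κ δ : ℝ) (hq : 0 < q) (hq1 : q < 1) (_hδ : 0 < δ)
    (z : ℂ) (hz : 0 < z.im) (r : ℝ) (hr : ‖F z‖ ≤ r) :
    ∫ w in closedBall (0 : ℂ) r, uu F q κ δ w z ≤
      z.im ^ κ * (2 * Real.pi * (2 * r) ^ (2 - q) / (2 - q)) := by
  have hy : 0 ≤ z.im ^ κ := Real.rpow_nonneg hz.le _
  refine polar_le q r (by linarith) (F z) hr (fun w => uu F q κ δ w z) ?_ (z.im ^ κ) hy ?_
  · intro w
    show 0 ≤ uu F q κ δ w z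
    unfold uu EE
    positivity
  · intro w hw
    unfold uu
    have h3 : EE F δ w z ^ (-(q / 2)) ≤ ‖w - F z‖ ^ (-q) := by
      have := E_le F δ (q / 2) (by linarith) w z hw
      rw [show 2 * (q / 2) = q by ring] at this
      exact this
    exact mul_le_mul_of_nonneg_left h3 hy

end H36.EC
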